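import Pool.Agent.K3h16.MI.Stm

/-!
Moebius invariance of the nu-weighted energy (MP_34b615_gt): brick DT.
-/

open MeasureTheory Set Filter Topology
open scoped ContDiff

namespace Pool.Agent.K3h52.MI

open Pool.Agent.K3h16.MI

/-- The set of parameters with nonzero direction. -/
def Om (m : ℕ) : Set (ℂ × E m × E m × ℝ) := {p | p.2.2.1 ≠ 0}

lemma isOpen_Om (m : ℕ) : IsOpen (Om m) :=
  isOpen_ne_fun (by fun_prop) continuous_const

/-- Mixed derivatives: the `t`-derivative of a smooth function on `ℂ × ℝ`, holomorphic in the first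
variable, is holomorphic in the first variable. -/
lemma holo_deriv (Φ : ℂ × ℝ → ℂ) (hΦ : ContDiff ℝ ∞ Φ)
    (hz : ∀ t, Differentiable ℂ (fun z => Φ (z, t))) (t : ℝ) :
    Differentiable ℂ (fun z => deriv (fun t => Φ (z, t)) t) := by
  have hd : Differentiable ℝ Φ := hΦ.differentiable (by simp)
  have hD : ContDiff ℝ ∞ (fderiv ℝ Φ) := hΦ.fderiv_right (by simp)
  have hDd : Differentiable ℝ (fderiv ℝ Φ) := hD.differentiable (by simp)
  have h1 : ∀ z t, deriv (fun t => Φ (z, t)) t = fderiv ℝ Φ (z, t) (0, 1) := by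
    intro z t
    have h2 : HasDerivAt (fun t : ℝ => ((z, t) : ℂ × ℝ)) (0, 1) t :=
      (hasDerivAt_const t z).prodMk (hasDerivAt_id t)
    exact ((hd (z, t)).hasFDerivAt.comp_hasDerivAt t h2).deriv
  have h3 : ∀ z t (w : ℂ), fderiv ℝ Φ (z, t) (w, 0) = w * deriv (fun z => Φ (z, t)) z := by
    intro z t w
    have h4 : HasFDerivAt (fun z : ℂ => ((z, t) : ℂ × ℝ))
        ((ContinuousLinearMap.id ℝ ℂ).prod (0 : ℂ →L[ℝ] ℝ)) z :=
      (hasFDerivAt_id z).prodMk (hasFDerivAt_const t z)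
    have h5 := (hd (z, t)).hasFDerivAt.comp z h4
    have h6 : HasFDerivAt (fun z => Φ (z, t))
        ((deriv (fun z => Φ (z, t)) z • (1 : ℂ →L[ℂ] ℂ)).restrictScalars ℝ) z := by
      have := ((hz t z).hasDerivAt).hasFDerivAt
      refine (this.restrictScalars ℝ).congr_fderiv ?_
      ext w
      simp [mul_comm]
    have h7 := h5.unique h6
    have h8 := congrArg (fun L : ℂ →L[ℝ] ℂ => L w) h7
    simpa [mul_comm] using h8
  intro z
  have h9 : (fun z => deriv (fun t => Φ (z, t)) t) = fun z => fderiv ℝ Φ (z, t) (0, 1) := by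
    funext z; exact h1 z t
  rw [h9]
  have h10 : HasFDerivAt (fun z : ℂ => ((z, t) : ℂ × ℝ))
      ((ContinuousLinearMap.id ℝ ℂ).prod (0 : ℂ →L[ℝ] ℝ)) z :=
    (hasFDerivAt_id z).prodMk (hasFDerivAt_const t z)
  have h11 := (hDd (z, t)).hasFDerivAt.comp z h10
  have h12 : HasFDerivAt (fun z => fderiv ℝ Φ (z, t) (0, 1))
      ((ContinuousLinearMap.apply ℝ ℂ ((0, 1) : ℂ × ℝ)).comp ((fderiv ℝ (fderiv ℝ Φ) (z, t)).comp
        ((ContinuousLinearMap.id ℝ ℂ).prod (0 : ℂ →L[ℝ] ℝ)))) z :=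
    (ContinuousLinearMap.apply ℝ ℂ ((0, 1) : ℂ × ℝ)).hasFDerivAt.comp z h11
  rw [differentiableAt_complex_iff_differentiableAt_real]
  refine ⟨h12.differentiableAt, ?_⟩
  rw [h12.fderiv]
  have hsym : IsSymmSndFDerivAt ℝ Φ (z, t) :=
    (hΦ.contDiffAt).isSymmSndFDerivAt (by
      rw [minSmoothness_of_isRCLikeNormedField]
      exact ENat.LEInfty.out)
  have key : ∀ w : ℂ, fderiv ℝ (fderiv ℝ Φ) (z, t) (w, 0) (0, 1) =
      deriv (fun s => fderiv ℝ Φ (z, s) (w, 0)) t := by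
    intro w
    rw [hsym.eq (w, 0) (0, 1)]
    have h2 : HasDerivAt (fun t : ℝ => ((z, t) : ℂ × ℝ)) (0, 1) t :=
      (hasDerivAt_const t z).prodMk (hasDerivAt_id t)
    have h13 := (hDd (z, t)).hasFDerivAt.comp_hasDerivAt t h2
    have h14 := (ContinuousLinearMap.apply ℝ ℂ ((w, 0) : ℂ × ℝ)).hasFDerivAt.comp_hasDerivAt t h13
    exact h14.deriv.symm
  have h15 : fderiv ℝ (fderiv ℝ Φ) (z, t) (Complex.I, 0) (0, 1) =
      Complex.I * fderiv ℝ (fderiv ℝ Φ) (z, t) (1, 0) (0, 1) := by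
    rw [key, key, ← deriv_const_mul_field]
    congr 1
    funext s
    rw [h3, h3]; ring
  simpa using h15

/-- The induction step. -/
lemma step {m : ℕ} (g : ℂ → E m → E m → ℝ → ℂ)
    (hG : ContDiffOn ℝ ∞ (fun p : ℂ × E m × E m × ℝ => g p.1 p.2.1 p.2.2.1 p.2.2.2) (Om m))
    (hz : ∀ u θ t, θ ≠ 0 → Differentiable ℂ (fun z => g z u θ t)) :
    ContDiffOn ℝ ∞ (fun p : ℂ × E m × E m × ℝ => deriv (g p.1 p.2.1 p.2.2.1) p.2.2.2) (Om m) ∧
    ∀ u θ t, θ ≠ 0 → Differentiable ℂ (fun z => deriv (g z u θ) t) := by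
  constructor
  · have h1 : ContDiffOn ℝ ∞ (fun p : ℂ × E m × E m × ℝ =>
        fderiv ℝ (fun p : ℂ × E m × E m × ℝ => g p.1 p.2.1 p.2.2.1 p.2.2.2) p (0, 0, 0, 1))
        (Om m) :=
      (hG.fderiv_of_isOpen (isOpen_Om m) (by simp)).clm_apply contDiffOn_const
    refine h1.congr ?_
    rintro ⟨z, u, θ, t⟩ hp
    have h2 : HasDerivAt (fun t : ℝ => ((z, u, θ, t) : ℂ × E m × E m × ℝ)) (0, 0, 0, 1) t :=
      (hasDerivAt_const t z).prodMk ((hasDerivAt_const t u).prodMk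
        ((hasDerivAt_const t θ).prodMk (hasDerivAt_id t)))
    have h3 : DifferentiableAt ℝ (fun p : ℂ × E m × E m × ℝ => g p.1 p.2.1 p.2.2.1 p.2.2.2)
        (z, u, θ, t) :=
      (hG.contDiffAt ((isOpen_Om m).mem_nhds hp)).differentiableAt (by simp)
    exact (h3.hasFDerivAt.comp_hasDerivAt t h2).deriv
  · intro u θ t hθ
    refine holo_deriv (fun q : ℂ × ℝ => g q.1 u θ q.2) ?_ (fun t => hz u θ t hθ) t
    rw [← contDiffOn_univ]
    refine hG.comp (s := univ) (f := fun q : ℂ × ℝ => ((q.1, u, θ, q.2) : ℂ × E m × E m × ℝ))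
      (by fun_prop) ?_
    intro q _
    exact hθ

/-- Brick DT. -/
theorem t_DT : S_DT := by
  intro m h hG hz N
  have main : ContDiffOn ℝ ∞ (fun p : ℂ × E m × E m × ℝ =>
      iteratedDeriv N (h p.1 p.2.1 p.2.2.1) p.2.2.2) (Om m) ∧
      ∀ u θ t, θ ≠ 0 → Differentiable ℂ (fun z => iteratedDeriv N (h z u θ) t) := by
    induction N with
    | zero => simpa [iteratedDeriv_zero] using ⟨hG, hz⟩
    | succ N ih =>
      have h1 := step (fun z u θ t => iteratedDeriv N (h z u θ) t) ih.1 ih.2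
      simpa [iteratedDeriv_succ] using h1
  exact ⟨main.1.continuousOn, main.2⟩

end Pool.Agent.K3h52.MI
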