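import Pool.Agent.K3h16.MI.Stm

/-!
Moebius invariance of the nu-weighted energy (MP_34b615_gt): brick PG.
-/

open MeasureTheory Set Filter Topology
open scoped ContDiff

namespace Pool.Agent.K3h52.MI

open Pool.Agent.K3h16.MI

lemma ann_ne {m : ℕ} {θ : E m} (h : θ ∈ Ann m) : θ ≠ 0 := by
  rintro rfl
  have := h.1
  simp at this
  linarith

lemma measurableSet_Ann (m : ℕ) : MeasurableSet (Ann m) := by
  have h1 : IsClosed (Ann m) :=
    (isClosed_le continuous_const continuous_norm).inter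
      (isClosed_le continuous_norm continuous_const)
  exact h1.measurableSet

lemma neg_mem_Ann {m : ℕ} (θ : E m) : -θ ∈ Ann m ↔ θ ∈ Ann m := by
  simp [Ann]

/-- The integral of an odd function over the annulus. -/
lemma integral_odd {m : ℕ} (F : E m → ℂ) (hF : ∀ θ, F (-θ) = -F θ) :
    ∫ θ in Ann m, F θ = 0 := by
  rw [← integral_indicator (measurableSet_Ann m)]
  have h1 : ∫ θ, (Ann m).indicator F (-θ) = ∫ θ, (Ann m).indicator F θ :=
    integral_neg_eq_self _ _
  have h2 : (fun θ => (Ann m).indicator F (-θ)) = fun θ => -(Ann m).indicator F θ := by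
    funext θ
    by_cases hθ : θ ∈ Ann m
    · rw [indicator_of_mem hθ, indicator_of_mem ((neg_mem_Ann θ).2 hθ), hF]
    · rw [indicator_of_notMem hθ, indicator_of_notMem (fun h => hθ ((neg_mem_Ann θ).1 h)), neg_zero]
  rw [h2, integral_neg] at h1
  exact self_eq_neg.1 h1.symm

lemma hcs_iter {f : ℝ → ℂ} (N : ℕ) (hf : HasCompactSupport f) :
    HasCompactSupport (iteratedDeriv N f) := by
  induction N with
  | zero => simpa [iteratedDeriv_zero] using hf
  | succ N ih => rw [iteratedDeriv_succ]; exact ih.deriv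

/-- Brick PG. -/
theorem t_PG : S_IBP → S_DT → S_HOL → S_PG := by
  intro hIBP hDT hHOL m hm h R hG hz hR hpar
  have hfs : ∀ (z : ℂ) (u θ : E m), θ ≠ 0 → ContDiff ℝ ∞ (h z u θ) := by
    intro z u θ hθ
    rw [← contDiffOn_univ]
    refine hG.comp (s := univ) (f := fun t : ℝ => ((z, u, θ, t) : ℂ × E m × E m × ℝ))
      (by fun_prop) ?_
    intro q _
    exact hθ
  have hcs : ∀ (z : ℂ) (u θ : E m), 1 ≤ ‖θ‖ → HasCompactSupport (h z u θ) := by
    intro z u θ hθ
    refine HasCompactSupport.intro (isCompact_Icc : IsCompact (Icc (-R) R)) ?_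
    intro t ht
    refine hR z u θ t hθ (Or.inr ?_)
    by_contra hc
    push Not at hc
    exact ht (abs_le.1 hc)
  have hsup : ∀ (z : ℂ) (u θ : E m) (t : ℝ), 1 ≤ ‖θ‖ → (R < ‖u‖ ∨ R < |t|) →
      iteratedDeriv (m + 1) (h z u θ) t = 0 := by
    intro z u θ t hθ hc
    have h0 : h z u θ =ᶠ[𝓝 t] fun _ => (0 : ℂ) := by
      rcases hc with hc | hc
      · exact Filter.Eventually.of_forall fun t => hR z u θ t hθ (Or.inl hc)
      · have : ∀ᶠ t' in 𝓝 t, R < |t'| :=
          (isOpen_lt continuous_const continuous_abs).mem_nhds hc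
        exact this.mono fun t' ht' => hR z u θ t' hθ (Or.inr ht')
    rw [h0.iteratedDeriv_eq]
    simp
  refine ⟨fun z => (-1) ^ (m + 1) * ∫ u : E m, ∫ θ in Ann m, ∫ t in Ioi (0 : ℝ),
    (t : ℂ) ^ (z + 2 * m) * iteratedDeriv (m + 1) (h z u θ) t, ?_, ?_, ?_⟩
  · refine DifferentiableOn.const_mul ?_ _
    exact hHOL m (fun z u θ t => iteratedDeriv (m + 1) (h z u θ) t) R
      (hDT m h hG hz (m + 1)).1 (hDT m h hG hz (m + 1)).2 hsup
  · intro hodd
    have h1 : ∀ u : E m, ∫ θ in Ann m, ∫ t in Ioi (0 : ℝ),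
        (t : ℂ) ^ (-(2 * (m : ℂ)) + 2 * m) *
          iteratedDeriv (m + 1) (h (-(2 * (m : ℂ))) u θ) t = 0 := by
      intro u
      set z : ℂ := -(2 * (m : ℂ)) with hzdef
      have h2 : ∀ θ ∈ Ann m, ∫ t in Ioi (0 : ℝ), (t : ℂ) ^ (z + 2 * m) *
          iteratedDeriv (m + 1) (h z u θ) t = -iteratedDeriv m (h z u θ) 0 := by
        intro θ hθ
        have h3 : (fun t : ℝ => (t : ℂ) ^ (z + 2 * m) * iteratedDeriv (m + 1) (h z u θ) t) =
            fun t : ℝ => deriv (iteratedDeriv m (h z u θ)) t := by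
          funext t
          rw [hzdef, neg_add_cancel, Complex.cpow_zero, one_mul, iteratedDeriv_succ]
        rw [h3]
        have hsm : ContDiff ℝ ∞ (iteratedDeriv m (h z u θ)) := by
          have := (hfs z u θ (ann_ne hθ))
          rw [iteratedDeriv_eq_iterate]
          exact this.iterate_deriv _
        have hc : HasCompactSupport (iteratedDeriv m (h z u θ)) :=
          hcs_iter m (hcs z u θ hθ.1)
        exact hc.integral_Ioi_deriv_eq (hsm.of_le (by simp)) 0
      rw [setIntegral_congr_fun (measurableSet_Ann m) h2]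
      refine integral_odd _ ?_
      intro θ
      have h4 : h z u (-θ) = fun t => h z u θ (-t) := by
        funext t
        have := hpar z u θ (-t)
        rwa [neg_neg] at this
      rw [h4, iteratedDeriv_comp_neg, hodd.neg_one_pow, neg_zero]
      simp
    simp only [h1, integral_zero, mul_zero]
  · intro s hs
    have h1 : ∀ (u θ : E m), θ ∈ Ann m →
        pm m s * ∫ t in Ioi (0 : ℝ), (t : ℂ) ^ ((s : ℂ) + m - 1) * h s u θ t =
        (-1) ^ (m + 1) * ∫ t in Ioi (0 : ℝ), (t : ℂ) ^ ((s : ℂ) + 2 * m) *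
          iteratedDeriv (m + 1) (h s u θ) t := by
      intro u θ hθ
      have h2 := hIBP (m + 1) (h s u θ) (hfs s u θ (ann_ne hθ)) (hcs s u θ hθ.1)
        ((s : ℂ) + m) (by simp; positivity)
      have h3 : (s : ℂ) + m + ((m + 1 : ℕ) : ℂ) - 1 = (s : ℂ) + 2 * m := by
        push_cast; ring
      rw [h3] at h2
      exact h2
    simp only
    rw [← integral_const_mul, ← integral_const_mul]
    congr 1
    funext u
    rw [← integral_const_mul, ← integral_const_mul]
    exact setIntegral_congr_fun (measurableSet_Ann m) fun θ hθ => h1 u θ hθ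

end Pool.Agent.K3h52.MI
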